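import Pool.Agent.Lib.MP_e1f7e2_al.FA.Iface2

/-!
# EIGHT: the argument of section 8 of Paper.md
-/

set_option autoImplicit false

open MulOpposite

namespace Pool.Agent.Lib.MP_e1f7e2_al.FA.H70

open Pool.Agent.Lib.MP_e1f7e2_al.FA

section
variable {K : Type*} [Field K] {n : ℕ}

theorem len_mono {m m' : ℕ} (h : m ≤ m') {f : A K n} (hf : Len m f) : Len m' f :=
  fun u hu => (hf u hu).trans h

theorem len_add {m : ℕ} {f g : A K n} (hf : Len m f) (hg : Len m g) : Len m (f + g) := by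
  classical
  intro u hu
  have h1 : u ∈ f.coeff.support ∪ g.coeff.support := by
    apply Finsupp.support_add
    rwa [← MonoidAlgebra.coeff_add]
  rcases Finset.mem_union.1 h1 with h | h
  · exact hf u h
  · exact hg u h

theorem len_smul {m : ℕ} (c : K) {f : A K n} (hf : Len m f) : Len m (c • f) := by
  intro u hu
  apply hf u
  rw [MonoidAlgebra.coeff_smul] at hu
  exact Finsupp.support_smul hu

theorem len_one {m : ℕ} : Len m (1 : A K n) := by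
  intro u hu
  have h1 : u = 1 := by
    by_contra hne
    rw [Finsupp.mem_support_iff] at hu
    apply hu
    rw [MonoidAlgebra.one_def]
    exact Finsupp.single_eq_of_ne hne
  rw [h1]
  exact Nat.zero_le _

theorem exists_len (f : A K n) : ∃ m : ℕ, Len m f :=
  ⟨f.coeff.support.sup fun u => u.toList.length, fun _ hu =>
    Finset.le_sup (f := fun u : Wd n => u.toList.length) hu⟩

theorem wt_nonneg {w : Fin n → ℝ} (hw : ∀ i, 0 ≤ w i) (u : Wd n) : 0 ≤ wt w u := by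
  unfold wt
  apply List.sum_nonneg
  intro x hx
  rw [List.mem_map] at hx
  obtain ⟨i, -, rfl⟩ := hx
  exact hw i

theorem dg_nonneg {w : Fin n → ℝ} (hw : ∀ i, 0 ≤ w i) (f : A K n) : 0 ≤ dg w f := by
  unfold dg dgr
  split_ifs with h
  · obtain ⟨u, hu⟩ := h
    exact (wt_nonneg hw u).trans (Finset.le_sup' (wt w) hu)
  · exact le_rfl

theorem et_nonneg {w : Fin 3 → ℝ} (hw : ∀ i, 0 < w i) (G : A K 4) : 0 ≤ et w G := by
  unfold et
  apply dg_nonneg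
  intro i
  unfold w4
  fin_cases i
  · exact (hw 0).le
  · exact (hw 1).le
  · exact (hw 2).le
  · exact le_rfl

theorem sp_map (Ψ : A K 3 ≃ₐ[K] A K 3) (f g h : A K 3) :
    (sp f g h).map (Ψ : A K 3 →ₐ[K] A K 3).toLinearMap = sp (Ψ f) (Ψ g) (Ψ h) := by
  unfold sp
  rw [Submodule.map_span]
  congr 1
  simp [Set.image_insert_eq]

theorem sp_symm (Ψ : A K 3 ≃ₐ[K] A K 3) (f g h f' g' h' : A K 3)
    (e : sp f g h = sp (Ψ f') (Ψ g') (Ψ h')) :
    sp (Ψ.symm f) (Ψ.symm g) (Ψ.symm h) = sp f' g' h' := by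
  rw [← sp_map Ψ.symm, e, sp_map Ψ.symm]
  simp

theorem B_map (Ψ : A K 3 ≃ₐ[K] A K 3) (f g r : A K 3) (hr : r ∈ B f g) :
    Ψ r ∈ B (Ψ f) (Ψ g) := by
  unfold B at *
  have h1 : Ψ r ∈ (Algebra.adjoin K {f, g}).map (Ψ : A K 3 →ₐ[K] A K 3) :=
    ⟨r, hr, rfl⟩
  rw [AlgHom.map_adjoin] at h1
  simpa [Set.image_insert_eq] using h1

theorem noPer_mono {m m' : ℕ} (h : m ≤ m') {u : Wd n} (hu : NoPer m' u) : NoPer m u :=
  ⟨lt_of_le_of_lt h hu.1, fun r h1 h2 => hu.2 r h1 (h2.trans h)⟩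

end

theorem eight (K : Type*) [Field K] (w : Fin 3 → ℝ) (hw : Gen w) (hF : Facts K w)
    (hM : MainStatement K w) (hT : TameStatement K w) (hR : RediStatement K w)
    (hTm : TmovStatement K) (hPhi : PhiStatement K) (hWp : WpStatement K w)
    (hWl : WlStatement K w) (hPb : PballStatement K w) (hMi : MiniStatement K w)
    (hCa : CaseaStatement K) (hCh : ChainFacts K 3) : EightStatement K := by
  intro ψ hψ
  have hFz : Fr (ψ.symm (xx 0)) (ψ.symm (xx 1)) (ψ.symm (xx 2)) := ⟨ψ.symm, rfl, rfl, rfl⟩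
  obtain ⟨z, hz⟩ : ∃ z : Fin 3 → A K 3, z = fun i => ψ.symm (xx i) := ⟨_, rfl⟩
  have hz' : ∀ i, z i = ψ.symm (xx i) := fun i => by rw [hz]
  obtain ⟨τ, hτ, hmin⟩ := hMi z ψ
  obtain ⟨Y, hY⟩ : ∃ Y : Fin 3 → A K 3, Y = fun i => ψ (τ (xx i)) := ⟨_, rfl⟩
  have hY' : ∀ i, Y i = ψ (τ (xx i)) := fun i => by rw [hY]
  rw [← hY] at hmin
  -- lengths
  obtain ⟨M, hM0, hM1, hM2⟩ : ∃ M : ℕ, Len M (Th z (Y 0)) ∧ Len M (Th z (Y 1)) ∧
      Len M (Th z (Y 2)) := by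
    obtain ⟨a, ha⟩ := exists_len (Th z (Y 0))
    obtain ⟨b, hb⟩ := exists_len (Th z (Y 1))
    obtain ⟨c, hc⟩ := exists_len (Th z (Y 2))
    exact ⟨a + b + c, len_mono (by omega) ha, len_mono (by omega) hb, len_mono (by omega) hc⟩
  have hLen : ∀ r ∈ sp (Y 0) (Y 1) (Y 2), Len M (Th z r) := by
    intro r hr
    obtain ⟨a, b, c, e, rfl⟩ := (hF.s.spmem _ _ _ _).1 hr
    rw [map_add, map_add, map_add, map_smul, map_smul, map_smul, map_smul, map_one]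
    exact len_add (len_add (len_add (len_smul _ hM0) (len_smul _ hM1)) (len_smul _ hM2))
      (len_smul _ len_one)
  have hFz' : Fr (z 0) (z 1) (z 2) := by rw [hz' 0, hz' 1, hz' 2]; exact hFz
  obtain ⟨m0, hm0⟩ := hPb z hFz' M
  obtain ⟨m1, hm10, hm1M⟩ : ∃ m1 : ℕ, m0 ≤ m1 ∧ M ≤ m1 :=
    ⟨max m0 M, le_max_left _ _, le_max_right _ _⟩
  have hnc : z 1 * z 2 ≠ z 2 * z 1 := hF.f.nc _ _ _ (hF.f.p23 _ _ _ (hF.f.p12 _ _ _ hFz'))
  obtain ⟨θ, hθ, wd, hlw, hper⟩ := hWp (z 1) (z 2) hnc m1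
  obtain ⟨Na, hNa⟩ := hm0 θ wd hlw (noPer_mono hm10 hper)
  obtain ⟨Nb, hNb⟩ := hWl m1 θ wd hlw hper
  have hdθ : 0 < dg w θ := by
    rcases (hF.d.nn θ).lt_or_eq with h | h
    · exact h
    · exfalso
      obtain ⟨c, hc⟩ := hF.d.of_zero θ h.symm
      have h1 := len_smul (m := 0) c (len_one (K := K) (n := 3)) wd
      rw [← hc] at h1
      have h2 := h1 hlw.1
      have h3 := hper.1
      omega
  obtain ⟨Nc, hNc⟩ := exists_nat_gt (max (sett w z Y) (sg w) / dg w θ)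
  refine ⟨ψ θ, ?_, max (max Na Nb) Nc, ?_⟩
  · have h1 := B_map ψ (z 1) (z 2) θ hθ
    rw [hz' 1, hz' 2, AlgEquiv.apply_symm_apply, AlgEquiv.apply_symm_apply] at h1
    exact h1
  intro N hN φ hφ0 hφ1 hφ2 hσ
  have hNa' := hNa N ((le_max_left _ _).trans ((le_max_left _ _).trans hN))
  have hNb' := hNb N ((le_max_right _ _).trans ((le_max_left _ _).trans hN))
  have hfB : ψ θ ∈ B (xx 1 : A K 3) (xx 2) := by
    have h1 := B_map ψ (z 1) (z 2) θ hθ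
    rw [hz' 1, hz' 2, AlgEquiv.apply_symm_apply, AlgEquiv.apply_symm_apply] at h1
    exact h1
  obtain ⟨D, hD⟩ : ∃ D : ℝ, D = N * dg w θ := ⟨_, rfl⟩
  have hD1 : max (sett w z Y) (sg w) < D := by
    have h1 : (Nc : ℝ) ≤ N := by exact_mod_cast (le_max_right _ _).trans hN
    have h2 := lt_of_lt_of_le hNc h1
    rw [div_lt_iff₀ hdθ] at h2
    rw [hD]
    exact h2
  have hDe : sett w z Y < D := lt_of_le_of_lt (le_max_left _ _) hD1
  have hDs : sg w < D := lt_of_le_of_lt (le_max_right _ _) hD1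
  -- the automorphism
  obtain ⟨Ψ, hΨ⟩ : ∃ Ψ : A K 3 ≃ₐ[K] A K 3, Ψ = φ.trans ψ.symm := ⟨_, rfl⟩
  have hΨT : ∀ H : A K 3, Ψ H = TN z θ N H := by
    intro H
    have h1 := hPhi ψ φ (ψ θ) N hφ0 hφ1 hφ2 hfB H
    rw [AlgEquiv.symm_apply_apply, ← hz] at h1
    rw [← h1, hΨ]
    rfl
  -- degrees
  have hS : ∀ H : A K 3, H ≠ 0 → Len m1 (Th z H) →
      dg w (Ψ H) = D * dt (Th z H) + et w (Th z H) := by
    intro H hH hl
    have hne : Th z H ≠ 0 := by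
      intro h0
      apply hH
      have h1 : Ψ H = 0 := by
        rw [hΨT H]
        show sb (θ ^ N) (Th z H) = 0
        rw [h0, map_zero]
      exact (map_eq_zero_iff Ψ Ψ.injective).1 h1
    have h2 := (hNb' (Th z H) hne hl).2
    rw [hΨT H]
    show dg w (sb (θ ^ N) (Th z H)) = _
    rw [h2, hD]
    ring
  have hDpos : 0 < D := lt_of_le_of_lt (by
    unfold sg
    have := hw.pos 0
    have := hw.pos 1
    have := hw.pos 2
    linarith) hDs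
  have hxne : ∀ (χ : A K 3 ≃ₐ[K] A K 3) (i : Fin 3), ψ (χ (xx i)) ≠ 0 := by
    intro χ i h0
    have h1 : χ (xx i) = 0 := (map_eq_zero_iff ψ ψ.injective).1 h0
    have h2 : (xx i : A K 3) = 0 := (map_eq_zero_iff χ χ.injective).1 h1
    have h3 := hF.d.xx' i
    rw [h2, hF.d.zero] at h3
    exact absurd h3 (hw.pos i).ne
  have hlY : ∀ i, Len m1 (Th z (Y i)) := by
    intro i
    fin_cases i
    · exact len_mono hm1M hM0
    · exact len_mono hm1M hM1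
    · exact len_mono hm1M hM2
  have hSY : ∀ i, dg w (Ψ (Y i)) = D * dt (Th z (Y i)) + et w (Th z (Y i)) := by
    intro i
    apply hS _ _ (hlY i)
    rw [hY' i]
    exact hxne τ i
  -- minimality
  have key : ∀ A1 A2 A3 q : A K 3, sp A1 A2 A3 = sp (Y 0) (Y 1) (Y 2) → q ∈ B A1 A2 →
      Len m1 (Th z A1) → Len m1 (Th z A2) → Len m1 (Th z (A3 + q)) →
      dg w (Ψ A1) + dg w (Ψ A2) + dg w (Ψ (A3 + q))
        < dg w (Ψ (Y 0)) + dg w (Ψ (Y 1)) + dg w (Ψ (Y 2)) → False := by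
    intro A1 A2 A3 q hsp hq l1 l2 l3 hlt
    rw [hY' 0, hY' 1, hY' 2] at hsp
    obtain ⟨τ', hτ', e0, e1, e2⟩ := hTm ψ τ A1 A2 A3 q hτ hsp hq
    have s1 := hS A1 (by rw [← e0]; exact hxne τ' 0) l1
    have s2 := hS A2 (by rw [← e1]; exact hxne τ' 1) l2
    have s3 := hS (A3 + q) (by rw [← e2]; exact hxne τ' 2) l3
    rw [s1, s2, s3, hSY 0, hSY 1, hSY 2] at hlt
    have n1 := et_nonneg hw.pos (Th z A1)
    have n2 := et_nonneg hw.pos (Th z A2)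
    have n3 := et_nonneg hw.pos (Th z (A3 + q))
    have hm := hmin τ' hτ'
    unfold sdt sett at hm
    beta_reduce at hm
    rw [e0, e1, e2] at hm
    unfold sett at hDe
    rcases hm with h | ⟨h, h'⟩
    · have h1 : ((dt (Th z (Y 0)) : ℝ) + dt (Th z (Y 1)) + dt (Th z (Y 2))) + 1 ≤
          (dt (Th z A1) : ℝ) + dt (Th z A2) + dt (Th z (A3 + q)) := by
        exact_mod_cast h
      nlinarith
    · have h1 : ((dt (Th z (Y 0)) : ℝ) + dt (Th z (Y 1)) + dt (Th z (Y 2))) =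
          (dt (Th z A1) : ℝ) + dt (Th z A2) + dt (Th z (A3 + q)) := by
        exact_mod_cast h
      nlinarith
  -- two elements of t-degree zero
  have hcase : ∀ H1 H2 H3 : A K 3, sp H1 H2 H3 = sp (Y 0) (Y 1) (Y 2) →
      dt (Th z H1) = 0 → dt (Th z H2) = 0 → False := by
    intro H1 H2 H3 hsp h1 h2
    rw [hY' 0, hY' 1, hY' 2] at hsp
    rw [hz] at h1 h2
    exact hψ (hCa ψ τ H1 H2 H3 hτ hsp h1 h2)
  -- the tame frame
  have hred : Red w (sp (Ψ (Y 0)) (Ψ (Y 1)) (Ψ (Y 2))) := by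
    have h1 := hT (ψ⁻¹ * φ * ψ * τ) ((TG K).mul_mem hσ hτ)
    have h2 : ∀ i, (ψ⁻¹ * φ * ψ * τ) (xx i) = Ψ (Y i) := by
      intro i
      rw [hY' i, hΨ]
      rfl
    rwa [h2 0, h2 1, h2 2] at h1
  have hfr : Fr (Ψ (Y 0)) (Ψ (Y 1)) (Ψ (Y 2)) := by
    refine ⟨ψ⁻¹ * φ * ψ * τ, ?_, ?_, ?_⟩
    · rw [hY' 0, hΨ]; rfl
    · rw [hY' 1, hΨ]; rfl
    · rw [hY' 2, hΨ]; rfl
  have hvdle := hF.v.le _ _ _ hfr
  -- pull back a basis
  have hback : ∀ f g h : A K 3, Fr f g h → sp f g h = sp (Ψ (Y 0)) (Ψ (Y 1)) (Ψ (Y 2)) →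
      ∃ H1 H2 H3 : A K 3, Ψ H1 = f ∧ Ψ H2 = g ∧ Ψ H3 = h ∧
        sp H1 H2 H3 = sp (Y 0) (Y 1) (Y 2) ∧
        Len M (Th z H1) ∧ Len M (Th z H2) ∧ Len M (Th z H3) ∧ H1 ≠ 0 ∧ H2 ≠ 0 ∧ H3 ≠ 0 := by
    intro f g h hfgh hsp
    have h1 := sp_symm Ψ _ _ _ _ _ _ hsp
    have hm : ∀ r, r ∈ ({1, Ψ.symm f, Ψ.symm g, Ψ.symm h} : Set (A K 3)) →
        r ∈ sp (Y 0) (Y 1) (Y 2) := by
      intro r hr
      rw [← h1]
      exact Submodule.subset_span hr
    have hne : ∀ r : A K 3, 0 < dg w r → Ψ.symm r ≠ 0 := by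
      intro r hr h0
      have h2 : r = 0 := (map_eq_zero_iff Ψ.symm Ψ.symm.injective).1 h0
      rw [h2, hF.d.zero] at hr
      exact lt_irrefl _ hr
    refine ⟨Ψ.symm f, Ψ.symm g, Ψ.symm h, Ψ.apply_symm_apply f, Ψ.apply_symm_apply g,
      Ψ.apply_symm_apply h, h1, hLen _ (hm _ (by simp)), hLen _ (hm _ (by simp)),
      hLen _ (hm _ (by simp)), hne _ (hF.f.pos _ _ _ hfgh),
      hne _ (hF.f.pos _ _ _ (hF.f.p12 _ _ _ hfgh)),
      hne _ (hF.f.pos _ _ _ (hF.f.p12 _ _ _ (hF.f.p23 _ _ _ hfgh)))⟩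
  rcases le_or_gt (vd w (sp (Ψ (Y 0)) (Ψ (Y 1)) (Ψ (Y 2)))) (sg w) with hv | hv
  · obtain ⟨f, g, h, -, -, hfgh, -, hor, hsp⟩ := hF.v.ex _ _ _ hfr
    obtain ⟨H1, H2, H3, e1, e2, e3, hspH, l1, l2, l3, n1, n2, n3⟩ := hback f g h hfgh hsp
    have hvd := hF.v.eq f g h hfgh hor
    rw [hsp] at hvd
    rw [hvd] at hv
    have s1 := hS H1 n1 (len_mono hm1M l1)
    have s2 := hS H2 n2 (len_mono hm1M l2)
    rw [e1] at s1
    rw [e2] at s2
    have p1 := hF.d.nn f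
    have p2 := hF.d.nn g
    have p3 := hF.d.nn h
    have q1 := et_nonneg hw.pos (Th z H1)
    have q2 := et_nonneg hw.pos (Th z H2)
    have hz0 : ∀ a : ℕ, D * a < D → a = 0 := by
      intro a ha
      by_contra hne
      have : (1 : ℝ) ≤ a := by exact_mod_cast Nat.one_le_iff_ne_zero.2 hne
      nlinarith
    exact hcase H1 H2 H3 hspH (hz0 _ (by linarith)) (hz0 _ (by linarith))
  · obtain ⟨f, g, h, h', hfgh, hsp, hor, hq, hlt, -, -⟩ := hR _ hred hv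
    obtain ⟨H1, H2, H3, e1, e2, e3, hspH, l1, l2, l3, n1, n2, n3⟩ := hback f g h hfgh hsp.symm
    have hvd := hF.v.eq f g h hfgh hor
    rw [← hsp] at hvd
    by_cases h00 : dt (Th z H1) = 0 ∧ dt (Th z H2) = 0
    · exact hcase H1 H2 H3 hspH h00.1 h00.2
    -- the reduction as a polynomial
    have hq' : h - h' ∈ B f g := by
      have := (B f g).neg_mem hq
      rwa [neg_sub] at this
    obtain ⟨P, hP⟩ := (hCh.bmem f g (h - h')).1 hq'
    have hlt' : dg w (h - ev P f g) < dg w h := by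
      rw [← hP, sub_sub_cancel]
      exact hlt
    have hgd : ND w f g → Gd w f g := by
      intro hnd
      apply hM.2 f g h hfgh _ hnd
      rw [← hsp]
      exact hred
    rw [← e1, ← e2, hΨT, hΨT] at hgd
    rw [← e1, ← e2, ← e3, hΨT, hΨT, hΨT] at hlt' hfgh
    have hP' := hNa' H1 H2 H3 l1 l2 l3 h00 hfgh hgd P hlt'
    simp only [← hΨT] at hP'
    have hsum : dg w (Ψ H1) + dg w (Ψ H2) + dg w (Ψ H3)
        ≤ dg w (Ψ (Y 0)) + dg w (Ψ (Y 1)) + dg w (Ψ (Y 2)) := by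
      rw [e1, e2, e3, ← hvd]
      exact hvdle
    rcases hP' with ⟨q, hqB, hlq, hdq⟩ | ⟨q, hqB, hlq, hdq⟩ | ⟨q, hqB, hlq, hdq⟩
    · exact key H1 H2 H3 q hspH hqB (len_mono hm1M l1) (len_mono hm1M l2) (len_mono hm10 hlq)
        (by linarith)
    · refine key H2 H3 H1 q ?_ hqB (len_mono hm1M l2) (len_mono hm1M l3) (len_mono hm10 hlq)
        (by linarith)
      rw [hF.s.scomm' H2 H3 H1, hF.s.scomm H2 H1 H3]
      exact hspH
    · refine key H1 H3 H2 q ?_ hqB (len_mono hm1M l1) (len_mono hm1M l3) (len_mono hm10 hlq)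
        (by linarith)
      rw [hF.s.scomm' H1 H3 H2]
      exact hspH

end Pool.Agent.Lib.MP_e1f7e2_al.FA.H70
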